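import Pool.Agent.Helper27.VF.Goals

/-!
# Project VF, packet KND: a complete minor from infinitely many vertices which are not separated
-/

set_option autoImplicit false

namespace Pool.Agent.Helper91.VF

open Pool.Agent.Helper27.VF

universe u

variable {W : Type u}

theorem conn_singleton (G : SimpleGraph W) (y : W) : (G.induce ({y} : Set W)).Connected := by
  have : Subsingleton ({y} : Set W) := ⟨fun a b => Subtype.ext (a.2.trans b.2.symm)⟩
  have : Nonempty ({y} : Set W) := ⟨⟨y, rfl⟩⟩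
  exact ⟨fun a b => by rw [Subsingleton.elim a b]⟩

/-- Cutting a walk from `B` to `C`. -/
theorem cut_walk (G : SimpleGraph W) (C X : Set W) : ∀ {a c : W} (p : G.Walk a c) (B : Set W),
    a ∈ B → c ∈ C → (∀ z ∈ p.support, z ∉ X) → (∀ z ∈ B, z ∉ C) → (G.induce B).Connected →
    ∃ T : Set W, T.Finite ∧ (∀ z ∈ T, z ∉ B ∧ z ∉ C ∧ z ∉ X) ∧ (G.induce (B ∪ T)).Connected ∧
      ∃ u ∈ B ∪ T, ∃ v ∈ C, G.Adj u v := by
  intro a c p
  induction p with
  | nil =>
    intro B ha hc _ hBC _
    exact absurd hc (hBC _ ha)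
  | @cons a b c hab p ih =>
    intro B ha hc hX hBC hB
    have hX' : ∀ z ∈ p.support, z ∉ X := fun z hz => hX z (by
      rw [SimpleGraph.Walk.support_cons]
      exact List.mem_cons_of_mem _ hz)
    by_cases hbC : b ∈ C
    · refine ⟨∅, Set.finite_empty, by simp, by rw [Set.union_empty]; exact hB, a, Or.inl ha, b, hbC, hab⟩
    · by_cases hbB : b ∈ B
      · exact ih B hbB hc hX' hBC hB
      · have hconn : (G.induce (B ∪ {b})).Connected :=
          SimpleGraph.connected_induce_union hB.preconnected (conn_singleton G b).preconnected ha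
            (Set.mem_singleton b) hab
        obtain ⟨T, hT1, hT2, hT3, u, hu, v, hv, huv⟩ := ih (B ∪ {b}) (Or.inr rfl) hc hX'
          (by
            rintro z (hz | hz)
            · exact hBC z hz
            · rw [hz]; exact hbC) hconn
        refine ⟨{b} ∪ T, (Set.finite_singleton b).union hT1, ?_, ?_, u, ?_, v, hv, huv⟩
        · rintro z (hz | hz)
          · rw [hz]
            exact ⟨hbB, hbC, hX' b p.start_mem_support⟩
          · exact ⟨fun h => (hT2 z hz).1 (Or.inl h), (hT2 z hz).2⟩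
        · rw [← Set.union_assoc]
          exact hT3
        · rw [← Set.union_assoc]
          exact hu

/-- A finite stage of the construction. -/
structure Good (G : SimpleGraph W) (Y : Set W) (β : ℕ → Set W) : Prop where
  fin : (⋃ i, β i).Finite
  ok : ∀ i, (β i).Nonempty → (G.induce (β i)).Connected ∧ ∃ y ∈ β i, y ∈ Y
  dis : ∀ i j, i ≠ j → ∀ z, z ∈ β i → z ∉ β j

variable {G : SimpleGraph W} {Y : Set W} {β : ℕ → Set W}

theorem Good.update (h : Good G Y β) (i : ℕ) (B : Set W) (hB : B.Finite)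
    (hc : (G.induce B).Connected) (hy : ∃ y ∈ B, y ∈ Y) (hd : ∀ j, j ≠ i → ∀ z ∈ B, z ∉ β j) :
    Good G Y (Function.update β i B) where
  fin := by
    refine (h.fin.union hB).subset ?_
    intro z hz
    obtain ⟨j, hj⟩ := Set.mem_iUnion.1 hz
    by_cases hji : j = i
    · subst hji
      rw [Function.update_self] at hj
      exact Or.inr hj
    · rw [Function.update_of_ne hji] at hj
      exact Or.inl (Set.mem_iUnion.2 ⟨j, hj⟩)
  ok := by
    intro j hj
    by_cases hji : j = i
    · subst hji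
      rw [Function.update_self]
      exact ⟨hc, hy⟩
    · rw [Function.update_of_ne hji] at hj ⊢
      exact h.ok j hj
  dis := by
    intro j k hjk z hz hz'
    by_cases hji : j = i
    · subst hji
      rw [Function.update_self] at hz
      rw [Function.update_of_ne (Ne.symm hjk)] at hz'
      exact hd k (Ne.symm hjk) z hz hz'
    · rw [Function.update_of_ne hji] at hz
      by_cases hki : k = i
      · subst hki
        rw [Function.update_self] at hz'
        exact hd j hji z hz' hz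
      · rw [Function.update_of_ne hki] at hz'
        exact h.dis j k hjk z hz hz'

theorem Good.create (hY : Y.Infinite) (h : Good G Y β) (i : ℕ) :
    ∃ β', Good G Y β' ∧ (∀ k, β k ⊆ β' k) ∧ (β' i).Nonempty := by
  by_cases hi : (β i).Nonempty
  · exact ⟨β, h, fun _ => subset_rfl, hi⟩
  · rw [Set.not_nonempty_iff_eq_empty] at hi
    obtain ⟨y, hy1, hy2⟩ := (hY.sdiff h.fin).nonempty
    refine ⟨Function.update β i {y}, h.update i {y} (Set.finite_singleton y)
      (conn_singleton G y) ⟨y, rfl, hy1⟩ ?_, ?_, ?_⟩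
    · intro j _ z hz hz'
      rw [Set.mem_singleton_iff.1 hz] at hz'
      exact hy2 (Set.mem_iUnion.2 ⟨j, hz'⟩)
    · intro k
      by_cases hk : k = i
      · subst hk
        rw [hi]
        exact Set.empty_subset _
      · rw [Function.update_of_ne hk]
    · rw [Function.update_self]
      exact Set.singleton_nonempty y

/-- Two vertices which are not separated are joined by a walk avoiding a given finite set. -/
theorem exists_walk {x y : W} (X : Set W) (hX : X.Finite) (hx : x ∉ X) (hy : y ∉ X)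
    (hsep : ∀ c, IsCut G c → ¬ (x ∈ c.1 ∧ y ∈ c.2)) :
    ∃ p : G.Walk x y, ∀ z ∈ p.support, z ∉ X := by
  set C : Set W := {z | ∃ p : G.Walk x z, ∀ z' ∈ p.support, z' ∉ X} with hC
  have hcut : IsCut G (C, (C ∪ X)ᶜ) := by
    refine ⟨?_, ?_, ?_⟩
    · intro z hz hz'
      exact hz' (Or.inl hz)
    · refine hX.subset ?_
      intro z hz
      rw [mem_sep] at hz
      by_contra hzX
      apply hz.2
      rintro (h | h)
      · exact hz.1 h
      · exact hzX h
    · rintro a ⟨p, hp⟩ b hb hab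
      apply hb
      left
      refine ⟨p.append (SimpleGraph.Walk.cons hab SimpleGraph.Walk.nil), ?_⟩
      intro z hz
      rw [SimpleGraph.Walk.mem_support_append_iff] at hz
      rcases hz with hz | hz
      · exact hp z hz
      · simp only [SimpleGraph.Walk.support_cons, SimpleGraph.Walk.support_nil,
          List.mem_cons, List.not_mem_nil, or_false] at hz
        rcases hz with rfl | rfl
        · exact hp _ p.end_mem_support
        · exact fun h => hb (Or.inr h)
  have h1 := hsep _ hcut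
  by_contra hno
  apply h1
  refine ⟨⟨SimpleGraph.Walk.nil, ?_⟩, ?_⟩
  · intro z hz
    rw [SimpleGraph.Walk.support_nil, List.mem_singleton] at hz
    rw [hz]
    exact hx
  · rintro (h | h)
    · exact hno h
    · exact hy h

theorem Good.join (hsep : ∀ x ∈ Y, ∀ y ∈ Y, ∀ c, IsCut G c → ¬ (x ∈ c.1 ∧ y ∈ c.2))
    (h : Good G Y β) (i j : ℕ) (hij : i ≠ j) (hi : (β i).Nonempty) (hj : (β j).Nonempty) :
    ∃ β', Good G Y β' ∧ (∀ k, β k ⊆ β' k) ∧ ∃ a ∈ β' i, ∃ b ∈ β' j, G.Adj a b := by
  obtain ⟨hci, x, hxi, hxY⟩ := h.ok i hi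
  obtain ⟨hcj, y, hyj, hyY⟩ := h.ok j hj
  set X : Set W := {z | ∃ k, k ≠ i ∧ k ≠ j ∧ z ∈ β k} with hX
  have hXf : X.Finite := by
    refine h.fin.subset ?_
    rintro z ⟨k, _, _, hk⟩
    exact Set.mem_iUnion.2 ⟨k, hk⟩
  have hxX : x ∉ X := by
    rintro ⟨k, hk1, _, hk⟩
    exact h.dis k i hk1 x hk hxi
  have hyX : y ∉ X := by
    rintro ⟨k, _, hk2, hk⟩
    exact h.dis k j hk2 y hk hyj
  obtain ⟨p, hp⟩ := exists_walk X hXf hxX hyX (hsep x hxY y hyY)
  obtain ⟨T, hT1, hT2, hT3, u, hu, v, hv, huv⟩ := cut_walk G (β j) X p (β i) hxi hyj hp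
    (h.dis i j hij) hci
  have hfi : (β i).Finite := h.fin.subset (Set.subset_iUnion β i)
  refine ⟨Function.update β i (β i ∪ T), h.update i (β i ∪ T) (hfi.union hT1) hT3
    ⟨x, Or.inl hxi, hxY⟩ ?_, ?_, u, ?_, v, ?_, huv⟩
  · rintro k hk z (hz | hz) hz'
    · exact h.dis i k (Ne.symm hk) z hz hz'
    · by_cases hkj : k = j
      · subst hkj
        exact (hT2 z hz).2.1 hz'
      · exact (hT2 z hz).2.2 ⟨k, hk, hkj, hz'⟩
  · intro k
    by_cases hk : k = i
    · subst hk
      rw [Function.update_self]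
      exact Set.subset_union_left
    · rw [Function.update_of_ne hk]
  · rw [Function.update_self]
    exact hu
  · rw [Function.update_of_ne (Ne.symm hij)]
    exact hv

/-- **KND.** A complete minor from infinitely many vertices which are not separated. -/
theorem knd : KndStmt.{u} := by
  intro W G Y hY hsep
  have step : ∀ (n : ℕ) (β : {β : ℕ → Set W // Good G Y β}), ∃ β' : {β : ℕ → Set W // Good G Y β},
      (∀ k, β.1 k ⊆ β'.1 k) ∧ (β'.1 n.unpair.1).Nonempty ∧ (n.unpair.1 ≠ n.unpair.2 →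
        ∃ a ∈ β'.1 n.unpair.1, ∃ b ∈ β'.1 n.unpair.2, G.Adj a b) := by
    rintro n ⟨β, hβ⟩
    obtain ⟨β1, h1, m1, n1⟩ := hβ.create hY n.unpair.1
    obtain ⟨β2, h2, m2, n2⟩ := h1.create hY n.unpair.2
    by_cases hne : n.unpair.1 = n.unpair.2
    · exact ⟨⟨β2, h2⟩, fun k => (m1 k).trans (m2 k), n1.mono (m2 _), fun h => absurd hne h⟩
    · obtain ⟨β3, h3, m3, a, ha, b, hb, hab⟩ := h2.join hsep n.unpair.1 n.unpair.2 hne
        (n1.mono (m2 _)) n2
      exact ⟨⟨β3, h3⟩, fun k => ((m1 k).trans (m2 k)).trans (m3 k),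
        (n1.mono (m2 _)).mono (m3 _), fun _ => ⟨a, ha, b, hb, hab⟩⟩
  choose nxt hn1 hn2 hn3 using step
  have h0 : Good G Y (fun _ => (∅ : Set W)) :=
    ⟨by simp, fun i hi => absurd hi (by simp), by simp⟩
  let s : ℕ → {β : ℕ → Set W // Good G Y β} := fun n => Nat.rec ⟨fun _ => ∅, h0⟩ (fun n β => nxt n β) n
  have hs : ∀ n, s (n + 1) = nxt n (s n) := fun n => rfl
  have hmono : ∀ k m n, m ≤ n → (s m).1 k ⊆ (s n).1 k := by
    intro k m n hmn
    induction hmn with
    | refl => exact subset_rfl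
    | @step n _ ih =>
      refine ih.trans ?_
      rw [hs]
      exact hn1 n (s n) k
  have hne : ∀ i, ∃ n, ((s n).1 i).Nonempty := by
    intro i
    refine ⟨Nat.pair i i + 1, ?_⟩
    rw [hs]
    have := hn2 (Nat.pair i i) (s (Nat.pair i i))
    rwa [Nat.unpair_pair] at this
  refine ⟨fun i => ⋃ n, (s n).1 i, ?_, ?_, ?_⟩
  · intro i
    have e : (⋃ n, (s n).1 i) = ⋃₀ {t | t.Nonempty ∧ ∃ n, t = (s n).1 i} := by
      ext z
      simp only [Set.mem_iUnion, Set.mem_sUnion, Set.mem_ofPred_eq]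
      constructor
      · rintro ⟨n, hz⟩
        exact ⟨_, ⟨⟨z, hz⟩, n, rfl⟩, hz⟩
      · rintro ⟨t, ⟨_, n, rfl⟩, hz⟩
        exact ⟨n, hz⟩
    show (G.induce (⋃ n, (s n).1 i)).Connected
    rw [e]
    refine SimpleGraph.induce_sUnion_connected_of_pairwise_not_disjoint ?_ ?_ ?_
    · obtain ⟨n, hn⟩ := hne i
      exact ⟨_, hn, n, rfl⟩
    · rintro t t' ⟨ht, m, rfl⟩ ⟨ht', n, rfl⟩
      rcases le_total m n with h | h
      · obtain ⟨z, hz⟩ := ht
        exact ⟨z, hz, hmono i m n h hz⟩
      · obtain ⟨z, hz⟩ := ht'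
        exact ⟨z, hmono i n m h hz, hz⟩
    · rintro t ⟨ht, n, rfl⟩
      exact ((s n).2.ok i ht).1
  · intro i j hij
    rw [Set.disjoint_left]
    intro z hz hz'
    obtain ⟨m, hm⟩ := Set.mem_iUnion.1 hz
    obtain ⟨n, hn⟩ := Set.mem_iUnion.1 hz'
    exact (s (max m n)).2.dis i j hij z (hmono i m _ (le_max_left _ _) hm)
      (hmono j n _ (le_max_right _ _) hn)
  · intro i j hij
    have h1 := hn3 (Nat.pair i j) (s (Nat.pair i j))
    rw [Nat.unpair_pair] at h1
    obtain ⟨a, ha, b, hb, hab⟩ := h1 hij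
    rw [← hs] at ha hb
    have hb : b ∈ (s (Nat.pair i j + 1)).1 j := hb
    exact ⟨a, Set.mem_iUnion.2 ⟨Nat.pair i j + 1, ha⟩, b,
      Set.mem_iUnion.2 ⟨Nat.pair i j + 1, hb⟩, hab⟩

end Pool.Agent.Helper91.VF
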